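import Pool.Agent.Y184.SP.Base2

/-!
The elementary properties of the points of the surface (job SP-Pt).
-/

set_option autoImplicit false

open Set Topology Filter
open Pool.Agent.Y184.SP

namespace Pool.Agent.Y776.SP

theorem mem_Lam {x : ℂ} : x ∈ Lam ↔ (∃ m : ℤ, (m : ℝ) = x.re) ∧ ∃ n : ℤ, (n : ℝ) = x.im := by
  constructor
  · rintro ⟨m, n, rfl⟩
    exact ⟨⟨m, by simp⟩, ⟨n, by simp⟩⟩
  · rintro ⟨⟨m, hm⟩, ⟨n, hn⟩⟩
    refine ⟨m, n, ?_⟩
    apply Complex.ext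
    · simp [hm]
    · simp [hn]

theorem zero_mem_Lam : (0 : ℂ) ∈ Lam := ⟨0, 0, by simp⟩

theorem add_mem_Lam {x y : ℂ} (hx : x ∈ Lam) (hy : y ∈ Lam) : x + y ∈ Lam := by
  obtain ⟨m, n, rfl⟩ := hx
  obtain ⟨m', n', rfl⟩ := hy
  exact ⟨m + m', n + n', by push_cast; ring⟩

theorem neg_mem_Lam {x : ℂ} (hx : x ∈ Lam) : -x ∈ Lam := by
  obtain ⟨m, n, rfl⟩ := hx
  exact ⟨-m, -n, by push_cast; ring⟩

theorem sub_mem_Lam {x y : ℂ} (hx : x ∈ Lam) (hy : y ∈ Lam) : x - y ∈ Lam := by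
  rw [sub_eq_add_neg]
  exact add_mem_Lam hx (neg_mem_Lam hy)

theorem isClosed_Lam : IsClosed Lam := by
  have h : Lam = Complex.re ⁻¹' (Set.range ((↑) : ℤ → ℝ)) ∩ Complex.im ⁻¹' (Set.range ((↑) : ℤ → ℝ)) := by
    ext x
    rw [mem_Lam]
    rfl
  rw [h]
  have hc : IsClosed (Set.range ((↑) : ℤ → ℝ)) := Int.isClosedEmbedding_coe_real.isClosed_range
  exact (hc.preimage Complex.continuous_re).inter (hc.preimage Complex.continuous_im)

theorem eq_zero_of_mem {x : ℂ} (hx : x ∈ Lam) (h : ‖x‖ < 1) : x = 0 := by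
  obtain ⟨⟨m, hm⟩, ⟨n, hn⟩⟩ := mem_Lam.1 hx
  have h1 := (Complex.abs_re_le_norm x).trans_lt h
  have h2 := (Complex.abs_im_le_norm x).trans_lt h
  rw [← hm] at h1
  rw [← hn] at h2
  have hm0 : m = 0 := by
    have : |m| < 1 := by exact_mod_cast h1
    exact Int.abs_lt_one_iff.1 this
  have hn0 : n = 0 := by
    have : |n| < 1 := by exact_mod_cast h2
    exact Int.abs_lt_one_iff.1 this
  apply Complex.ext
  · rw [← hm, hm0]; simp
  · rw [← hn, hn0]; simp

theorem frc_re (x : ℂ) : (frc x).re = Int.fract x.re := by simp [frc]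

theorem frc_im (x : ℂ) : (frc x).im = Int.fract x.im := by simp [frc]

theorem sub_frc_mem (x : ℂ) : x - frc x ∈ Lam := by
  rw [mem_Lam]
  constructor
  · refine ⟨⌊x.re⌋, ?_⟩
    rw [Complex.sub_re, frc_re, Int.self_sub_fract]
  · refine ⟨⌊x.im⌋, ?_⟩
    rw [Complex.sub_im, frc_im, Int.self_sub_fract]

theorem frc_add_lam {x l : ℂ} (hl : l ∈ Lam) : frc (x + l) = frc x := by
  obtain ⟨⟨m, hm⟩, ⟨n, hn⟩⟩ := mem_Lam.1 hl
  unfold frc
  rw [Complex.add_re, Complex.add_im, ← hm, ← hn, Int.fract_add_intCast, Int.fract_add_intCast]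

theorem frc_eq_frc {x y : ℂ} : frc x = frc y ↔ x - y ∈ Lam := by
  constructor
  · intro h
    have h1 := sub_mem_Lam (sub_frc_mem x) (sub_frc_mem y)
    rw [h, show x - frc y - (y - frc y) = x - y by ring] at h1
    exact h1
  · intro h
    have := frc_add_lam (x := y) h
    rwa [add_sub_cancel] at this

theorem frc_frc (x : ℂ) : frc (frc x) = frc x := by
  rw [frc_eq_frc]
  have := neg_mem_Lam (sub_frc_mem x)
  rwa [neg_sub] at this

theorem frc_zero : frc 0 = 0 := by simp [frc]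

theorem frc_eq_zero {x : ℂ} : frc x = 0 ↔ x ∈ Lam := by
  have := frc_eq_frc (x := x) (y := 0)
  rwa [frc_zero, sub_zero] at this

theorem inv1_ne {ξ : ℂ} : inv1 ξ ≠ ((0 : ℂ) : OnePoint ℂ) := by
  unfold inv1
  split_ifs with h
  · exact OnePoint.infty_ne_coe 0
  · rw [Ne, OnePoint.coe_eq_coe]
    exact inv_ne_zero h

theorem inv1_zero : inv1 0 = OnePoint.infty := by
  unfold inv1
  rw [if_pos rfl]

theorem inv1_of_ne {ξ : ℂ} (h : ξ ≠ 0) : inv1 ξ = ((ξ⁻¹ : ℂ) : OnePoint ℂ) := by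
  unfold inv1
  rw [if_neg h]

theorem inv1_eq_coe {ξ y : ℂ} (h : inv1 ξ = (y : OnePoint ℂ)) : ξ ≠ 0 ∧ y = ξ⁻¹ := by
  by_cases h0 : ξ = 0
  · rw [h0, inv1_zero] at h
    exact absurd h (OnePoint.infty_ne_coe y)
  · rw [inv1_of_ne h0, OnePoint.coe_eq_coe] at h
    exact ⟨h0, h.symm⟩

/-- the condition for the points of `X` -/
abbrev Good (p : Pt) : Prop := (∃ (x : ℂ) (y : OnePoint ℂ), p = Pt.reg x y ∧ frc x = x ∧
  ¬ (x = 0 ∧ y = ((0 : ℂ) : OnePoint ℂ))) ∨
  ∃ Y Z : OnePoint ℂ, p = Pt.exc Y Z ∧ (Y = ((0 : ℂ) : OnePoint ℂ) ∨ Z = OnePoint.infty)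

open Classical in
/-- the point of `X` -/
noncomputable def mk (p : Pt) : X := if h : Good p then ⟨p, h⟩ else base

theorem kap_eq (j : Fin 5) (z : E) : kap j z = mk (kap0 j z) := by
  unfold kap mk
  rfl

theorem mk_val {p : Pt} (h : Good p) : (mk p).1 = p := congrArg Subtype.val (dif_pos h : mk p = (⟨p, h⟩ : X))

theorem kap0_0 (z : E) : kap0 0 z = Pt.reg (frc z.1) (z.2 : ℂ) := rfl

theorem kap0_1 (z : E) : kap0 1 z = Pt.reg (frc z.1) (inv1 z.2) := rfl

open Classical in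
theorem kap0_2 (z : E) : kap0 2 z = if z.2 = 0 then Pt.exc (inv1 z.1) OnePoint.infty else
      Pt.reg (frc (z.1 * z.2)) ((z.2 + z.1 * z.2 : ℂ) : OnePoint ℂ) := rfl

open Classical in
theorem kap0_3 (z : E) : kap0 3 z = if z.1 * z.2 = 0 then Pt.exc (z.2 : ℂ) (inv1 z.1) else
      Pt.reg (frc (z.1 * z.2)) ((z.1 * z.2 ^ 2 + z.1 * z.2 : ℂ) : OnePoint ℂ) := rfl

open Classical in
theorem kap0_4 (z : E) : kap0 4 z = if z.1 = 0 then Pt.exc ((0 : ℂ) : OnePoint ℂ) (z.2 : ℂ) else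
      Pt.reg (frc z.1) ((z.1 ^ 2 * z.2 + z.1 : ℂ) : OnePoint ℂ) := rfl

theorem eq_zero_of_frc {x : ℂ} (h : ‖x‖ < 1 / 8) (h0 : frc x = 0) : x = 0 :=
  eq_zero_of_mem (frc_eq_zero.1 h0) (by linarith)

theorem good {j : Fin 5} {z : E} (hz : z ∈ V j) : Good (kap0 j z) := by
  fin_cases j
  · refine Or.inl ⟨_, _, rfl, frc_frc _, ?_⟩
    rintro ⟨h1, h2⟩
    rw [OnePoint.coe_eq_coe] at h2
    rcases hz with h | h
    · exact h (frc_eq_zero.1 h1)
    · exact h h2
  · exact Or.inl ⟨_, _, rfl, frc_frc _, fun h => inv1_ne h.2⟩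
  · change Good (kap0 2 z)
    rw [kap0_2]
    split_ifs with h
    · exact Or.inr ⟨_, _, rfl, Or.inr rfl⟩
    · refine Or.inl ⟨_, _, rfl, frc_frc _, ?_⟩
      rintro ⟨h1, h2⟩
      rw [OnePoint.coe_eq_coe, eq_zero_of_frc hz.1 h1, add_zero] at h2
      exact h h2
  · change Good (kap0 3 z)
    rw [kap0_3]
    split_ifs with h
    · rcases mul_eq_zero.1 h with h1 | h1
      · exact Or.inr ⟨_, _, rfl, Or.inr (by rw [h1, inv1_zero])⟩
      · exact Or.inr ⟨_, _, rfl, Or.inl (by rw [h1])⟩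
    · refine Or.inl ⟨_, _, rfl, frc_frc _, ?_⟩
      rintro ⟨h1, -⟩
      exact h (eq_zero_of_frc hz.1 h1)
  · change Good (kap0 4 z)
    rw [kap0_4]
    split_ifs with h
    · exact Or.inr ⟨_, _, rfl, Or.inl rfl⟩
    · refine Or.inl ⟨_, _, rfl, frc_frc _, ?_⟩
      rintro ⟨h1, -⟩
      exact h (eq_zero_of_frc hz.1 h1)

theorem kap_val {j : Fin 5} {z : E} (hz : z ∈ V j) : (kap j z).1 = kap0 j z := by
  rw [kap_eq, mk_val (good hz)]

theorem kap_inj {j j' : Fin 5} {z z' : E} (hz : z ∈ V j) (hz' : z' ∈ V j') :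
    kap j z = kap j' z' ↔ kap0 j z = kap0 j' z' := by
  constructor
  · intro h
    rw [← kap_val hz, ← kap_val hz', h]
  · intro h
    rw [kap_eq, kap_eq, h]

theorem reg_coe {j : Fin 5} {z : E} {a y : ℂ} (h : kap0 j z = Pt.reg a (y : OnePoint ℂ)) :
    a = frc (tr j z).1 ∧ y = (tr j z).2 := by
  fin_cases j
  · change Pt.reg (frc z.1) ((z.2 : ℂ) : OnePoint ℂ) = _ at h
    rw [Pt.reg.injEq, OnePoint.coe_eq_coe] at h
    exact ⟨h.1.symm, h.2.symm⟩
  · change Pt.reg (frc z.1) (inv1 z.2) = _ at h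
    rw [Pt.reg.injEq] at h
    exact ⟨h.1.symm, (inv1_eq_coe h.2).2⟩
  · change kap0 2 z = _ at h
    rw [kap0_2] at h
    split_ifs at h with h0
    rw [Pt.reg.injEq, OnePoint.coe_eq_coe] at h
    exact ⟨h.1.symm, h.2.symm⟩
  · change kap0 3 z = _ at h
    rw [kap0_3] at h
    split_ifs at h with h0
    rw [Pt.reg.injEq, OnePoint.coe_eq_coe] at h
    exact ⟨h.1.symm, h.2.symm⟩
  · change kap0 4 z = _ at h
    rw [kap0_4] at h
    split_ifs at h with h0
    rw [Pt.reg.injEq, OnePoint.coe_eq_coe] at h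
    exact ⟨h.1.symm, h.2.symm⟩

theorem reg_infty {j : Fin 5} {z : E} {a : ℂ} (h : kap0 j z = Pt.reg a OnePoint.infty) : j = 1 ∧ z.2 = 0 := by
  fin_cases j
  · change Pt.reg (frc z.1) ((z.2 : ℂ) : OnePoint ℂ) = _ at h
    rw [Pt.reg.injEq] at h
    exact absurd h.2 (OnePoint.coe_ne_infty _)
  · change Pt.reg (frc z.1) (inv1 z.2) = _ at h
    rw [Pt.reg.injEq] at h
    refine ⟨rfl, ?_⟩
    by_contra h0
    rw [inv1_of_ne h0] at h
    exact absurd h.2 (OnePoint.coe_ne_infty _)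
  · change kap0 2 z = _ at h
    rw [kap0_2] at h
    split_ifs at h with h0
    rw [Pt.reg.injEq] at h
    exact absurd h.2 (OnePoint.coe_ne_infty _)
  · change kap0 3 z = _ at h
    rw [kap0_3] at h
    split_ifs at h with h0
    rw [Pt.reg.injEq] at h
    exact absurd h.2 (OnePoint.coe_ne_infty _)
  · change kap0 4 z = _ at h
    rw [kap0_4] at h
    split_ifs at h with h0
    rw [Pt.reg.injEq] at h
    exact absurd h.2 (OnePoint.coe_ne_infty _)

theorem exc_tr {j : Fin 5} {z : E} {Y Z : OnePoint ℂ} (h : kap0 j z = Pt.exc Y Z) :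
    j ≠ 0 ∧ j ≠ 1 ∧ tr j z = (0, 0) := by
  fin_cases j
  · change Pt.reg (frc z.1) ((z.2 : ℂ) : OnePoint ℂ) = _ at h
    exact absurd h (by simp)
  · change Pt.reg (frc z.1) (inv1 z.2) = _ at h
    exact absurd h (by simp)
  · change kap0 2 z = _ at h
    rw [kap0_2] at h
    split_ifs at h with h0
    refine ⟨by decide, by decide, ?_⟩
    change (z.1 * z.2, z.2 + z.1 * z.2) = _
    rw [h0]
    simp
  · change kap0 3 z = _ at h
    rw [kap0_3] at h
    split_ifs at h with h0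
    refine ⟨by decide, by decide, ?_⟩
    change (z.1 * z.2, z.1 * z.2 ^ 2 + z.1 * z.2) = _
    rw [show z.1 * z.2 ^ 2 = z.1 * z.2 * z.2 by ring, h0]
    simp
  · change kap0 4 z = _ at h
    rw [kap0_4] at h
    split_ifs at h with h0
    refine ⟨by decide, by decide, ?_⟩
    change (z.1, z.1 ^ 2 * z.2 + z.1) = _
    rw [h0]
    simp

theorem W_V0 {z : E} (h : z ∈ W) : z ∈ V 0 := Or.inl h.1

theorem isOpen_V (j : Fin 5) : IsOpen (V j) := by
  fin_cases j
  · change IsOpen ({z : E | z.1 ∉ Lam} ∪ {z : E | z.2 ≠ 0})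
    exact (isClosed_Lam.isOpen_compl.preimage continuous_fst).union (isOpen_ne_fun continuous_snd continuous_const)
  · exact isOpen_univ
  · change IsOpen ({z : E | ‖z.1 * z.2‖ < 1 / 8} ∩ {z : E | ‖z.2‖ < 1 / 8})
    exact (isOpen_lt (by fun_prop) continuous_const).inter (isOpen_lt (by fun_prop) continuous_const)
  · change IsOpen ({z : E | ‖z.1 * z.2‖ < 1 / 8} ∩ {z : E | ‖z.1 * z.2 ^ 2‖ < 1 / 8})
    exact (isOpen_lt (by fun_prop) continuous_const).inter (isOpen_lt (by fun_prop) continuous_const)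
  · change IsOpen ({z : E | ‖z.1‖ < 1 / 8} ∩ {z : E | ‖z.1 ^ 2 * z.2‖ < 1 / 8})
    exact (isOpen_lt (by fun_prop) continuous_const).inter (isOpen_lt (by fun_prop) continuous_const)

theorem surj (p : X) : ∃ j, ∃ z ∈ V j, kap0 j z = p.1 := by
  obtain ⟨p, hp⟩ := p
  rcases hp with ⟨x, y, rfl, hx, hxy⟩ | ⟨Y, Z, rfl, hYZ⟩
  · induction y using OnePoint.rec with
    | infty =>
      refine ⟨1, (x, 0), trivial, ?_⟩
      rw [kap0_1]
      simp only
      rw [hx, inv1_zero]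
    | coe y =>
      refine ⟨0, (x, y), ?_, ?_⟩
      · by_contra hcon
        change ¬ (x ∉ Lam ∨ y ≠ 0) at hcon
        push Not at hcon
        apply hxy
        rw [← hx, frc_eq_zero, OnePoint.coe_eq_coe]
        exact hcon
      · rw [kap0_0]
        simp only
        rw [hx]
  · induction Z using OnePoint.rec with
    | infty =>
      induction Y using OnePoint.rec with
      | infty =>
        refine ⟨2, (0, 0), ?_, ?_⟩
        · change ‖(0 : ℂ) * 0‖ < 1 / 8 ∧ ‖(0 : ℂ)‖ < 1 / 8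
          norm_num
        · rw [kap0_2, if_pos rfl]
          simp only
          rw [inv1_zero]
      | coe Y =>
        refine ⟨3, (0, Y), ?_, ?_⟩
        · change ‖(0 : ℂ) * Y‖ < 1 / 8 ∧ ‖(0 : ℂ) * Y ^ 2‖ < 1 / 8
          norm_num
        · rw [kap0_3, if_pos (by simp)]
          simp only
          rw [inv1_zero]
    | coe Z =>
      rcases hYZ with h | h
      · refine ⟨4, (0, Z), ?_, ?_⟩
        · change ‖(0 : ℂ)‖ < 1 / 8 ∧ ‖(0 : ℂ) ^ 2 * Z‖ < 1 / 8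
          norm_num
        · rw [kap0_4, if_pos rfl]
          simp only
          rw [h]
      · exact absurd h (OnePoint.coe_ne_infty _)

theorem kap_tr {j : Fin 5} {z : E} (hz : z ∈ V j) (hW : tr j z ∈ W) : kap0 j z = kap0 0 (tr j z) := by
  rw [kap0_0]
  fin_cases j
  · rfl
  · change (z.1, z.2⁻¹) ∈ W at hW
    change kap0 1 z = Pt.reg (frc z.1) ((z.2⁻¹ : ℂ) : OnePoint ℂ)
    have h : z.2 ≠ 0 := by
      intro h
      apply hW.2
      simp [h]
    rw [kap0_1, inv1_of_ne h]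
  · change (z.1 * z.2, z.2 + z.1 * z.2) ∈ W at hW
    change kap0 2 z = Pt.reg (frc (z.1 * z.2)) ((z.2 + z.1 * z.2 : ℂ) : OnePoint ℂ)
    have h : z.2 ≠ 0 := by
      intro h
      apply hW.1
      simp only [h, mul_zero]
      exact zero_mem_Lam
    rw [kap0_2, if_neg h]
  · change (z.1 * z.2, z.1 * z.2 ^ 2 + z.1 * z.2) ∈ W at hW
    change kap0 3 z = Pt.reg (frc (z.1 * z.2)) ((z.1 * z.2 ^ 2 + z.1 * z.2 : ℂ) : OnePoint ℂ)
    have h : z.1 * z.2 ≠ 0 := by
      intro h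
      apply hW.1
      simp only [h]
      exact zero_mem_Lam
    rw [kap0_3, if_neg h]
  · change (z.1, z.1 ^ 2 * z.2 + z.1) ∈ W at hW
    change kap0 4 z = Pt.reg (frc z.1) ((z.1 ^ 2 * z.2 + z.1 : ℂ) : OnePoint ℂ)
    have h : z.1 ≠ 0 := by
      intro h
      apply hW.1
      simp only [h]
      exact zero_mem_Lam
    rw [kap0_4, if_neg h]

/-- the elementary properties of the points -/
theorem stPt : StPt := by
  refine ⟨isOpen_V, fun p => ?_, fun j z hz => kap_val hz, fun j z hz hW => ?_, ?_, ?_, ?_, ?_⟩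
  · obtain ⟨j, z, hz, h⟩ := surj p
    exact ⟨j, z, hz, Subtype.ext ((kap_val hz).trans h)⟩
  · rw [kap_inj hz (W_V0 hW)]
    exact kap_tr hz hW
  · intro z hz z' hz' h
    rw [kap_inj (W_V0 hz) (W_V0 hz'), kap0_0, kap0_0, Pt.reg.injEq, OnePoint.coe_eq_coe, frc_eq_frc] at h
    exact ⟨h.2, h.1⟩
  · intro j z hz z' hz' h
    rw [kap_inj hz (W_V0 hz'), kap0_0] at h
    obtain ⟨h1, h2⟩ := reg_coe h
    rw [frc_eq_frc] at h1
    refine ⟨fun h3 => hz'.1 ?_, ?_⟩
    · have := add_mem_Lam h1 h3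
      rwa [sub_add_cancel] at this
    · rw [← h2]
      exact hz'.2
  · intro z _ l hl
    rw [kap_eq, kap_eq, kap0_0, kap0_0]
    simp only
    rw [frc_add_lam hl]
  · rintro j j' z hz z' hz' h ⟨hj, h0⟩
    rw [kap_inj hz hz'] at h
    rcases hk : kap0 j z with ⟨a, y⟩ | ⟨Y, Z⟩
    · induction y using OnePoint.rec with
      | infty => exact absurd (reg_infty hk).1 hj
      | coe y =>
        obtain ⟨h1, h2⟩ := reg_coe hk
        rw [h0] at h2
        rw [h, h2] at hk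
        refine ⟨?_, (reg_coe hk).2.symm⟩
        rintro rfl
        rw [kap0_1, Pt.reg.injEq] at hk
        exact inv1_ne hk.2
    · rw [h] at hk
      obtain ⟨-, h1, h2⟩ := exc_tr hk
      exact ⟨h1, by rw [h2]⟩

end Pool.Agent.Y776.SP
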